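import Mathlib
import Pool.Agent.H482R3.EA.Stm

set_option autoImplicit false

/-! Project EA, task BD (helper514). -/

namespace Pool.Agent.H514R.EA

open Pool.Agent.H482R3.EA

def Good (n : ℕ) (π : Equiv.Perm (ℤ × ℤ)) : Prop :=
  ∀ p : ℤ × ℤ, |(π p).1 - p.1| ≤ n ∧ |(π p).2 - p.2| ≤ n ∧ ((n : ℤ) < |p.1| → (π p).2 = p.2)

theorem Good.one : Good 0 1 := by
  intro p
  simp

theorem Good.mul {n m : ℕ} {π ρ : Equiv.Perm (ℤ × ℤ)} (h1 : Good n π) (h2 : Good m ρ) :
    Good (n + m) (π * ρ) := by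
  intro p
  obtain ⟨a1, a2, a3⟩ := h2 p
  obtain ⟨b1, b2, b3⟩ := h1 (ρ p)
  rw [Equiv.Perm.mul_apply]
  rw [abs_le] at a1 a2 b1 b2
  push_cast
  refine ⟨?_, ?_, ?_⟩
  · rw [abs_le]; constructor <;> linarith
  · rw [abs_le]; constructor <;> linarith
  · intro h
    have h3 : (m : ℤ) < |p.1| := by
      have : (0 : ℤ) ≤ n := Int.natCast_nonneg n
      linarith
    have h4 : (n : ℤ) < |(ρ p).1| := by
      rcases abs_cases p.1 with ⟨e, _⟩ | ⟨e, _⟩ <;> rw [e] at h <;>
        rcases abs_cases (ρ p).1 with ⟨e', _⟩ | ⟨e', _⟩ <;> rw [e'] <;> linarith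
    rw [b3 h4, a3 h3]

theorem Good.mono {n m : ℕ} {π : Equiv.Perm (ℤ × ℤ)} (h1 : Good n π) (h : n ≤ m) : Good m π := by
  intro p
  obtain ⟨a1, a2, a3⟩ := h1 p
  have h' : (n : ℤ) ≤ m := by exact_mod_cast h
  exact ⟨a1.trans h', a2.trans h', fun h3 => a3 (h'.trans_lt h3)⟩

theorem Good.pow {π : Equiv.Perm (ℤ × ℤ)} (h1 : Good 1 π) (n : ℕ) : Good n (π ^ n) := by
  induction n with
  | zero => rw [pow_zero]; exact Good.one
  | succ n ih => rw [pow_succ]; exact ih.mul h1

theorem Good.zpow {π : Equiv.Perm (ℤ × ℤ)} (h1 : Good 1 π) (h2 : Good 1 π⁻¹) (a : ℤ) :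
    Good a.natAbs (π ^ a) := by
  rcases Int.eq_nat_or_neg a with ⟨n, rfl | rfl⟩
  · rw [zpow_natCast, Int.natAbs_natCast]; exact h1.pow n
  · rw [zpow_neg, zpow_natCast, Int.natAbs_neg, Int.natAbs_natCast, ← inv_pow]; exact h2.pow n

def Yp : Equiv.Perm (ℤ × ℤ) where
  toFun p := (p.1, p.2 + if p.1 = 0 then 1 else 0)
  invFun p := (p.1, p.2 - if p.1 = 0 then 1 else 0)
  left_inv p := by ext <;> simp
  right_inv p := by ext <;> simp

def Qp : Equiv.Perm (ℤ × ℤ) where
  toFun p := (p.1 - 1, p.2)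
  invFun p := (p.1 + 1, p.2)
  left_inv p := by ext <;> simp
  right_inv p := by ext <;> simp

theorem Yp_apply (p : ℤ × ℤ) : Yp p = (p.1, p.2 + if p.1 = 0 then 1 else 0) := rfl
theorem Yp_inv_apply (p : ℤ × ℤ) : Yp⁻¹ p = (p.1, p.2 - if p.1 = 0 then 1 else 0) := rfl
theorem Qp_apply (p : ℤ × ℤ) : Qp p = (p.1 - 1, p.2) := rfl
theorem Qp_inv_apply (p : ℤ × ℤ) : Qp⁻¹ p = (p.1 + 1, p.2) := rfl

theorem Qp_zpow (j : ℤ) : ∀ p : ℤ × ℤ, (Qp ^ j) p = (p.1 - j, p.2) := by
  induction j using Int.induction_on with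
  | zero => intro p; simp
  | succ n ih =>
    intro p
    rw [zpow_add, zpow_one, Equiv.Perm.mul_apply, ih, Qp_apply]
    ext <;> simp <;> ring
  | pred n ih =>
    intro p
    rw [zpow_sub, zpow_one, Equiv.Perm.mul_apply, ih, Qp_inv_apply]
    ext <;> simp <;> ring

theorem Yp_zpow (j : ℤ) : ∀ p : ℤ × ℤ, (Yp ^ j) p = (p.1, p.2 + if p.1 = 0 then j else 0) := by
  induction j using Int.induction_on with
  | zero => intro p; simp
  | succ n ih =>
    intro p
    rw [zpow_add, zpow_one, Equiv.Perm.mul_apply, ih, Yp_apply]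
    by_cases h : p.1 = 0
    · simp [h]; ring
    · simp [h]
  | pred n ih =>
    intro p
    rw [zpow_sub, zpow_one, Equiv.Perm.mul_apply, ih, Yp_inv_apply]
    by_cases h : p.1 = 0
    · simp [h]; ring
    · simp [h]

/-- a permutation all right for our purposes -/
def GG (π : Equiv.Perm (ℤ × ℤ)) : Prop := Good 1 π ∧ Good 1 π⁻¹

theorem GG_one : GG 1 := ⟨Good.one.mono (by norm_num), by rw [inv_one]; exact Good.one.mono (by norm_num)⟩

theorem good_of {π : Equiv.Perm (ℤ × ℤ)} (h : ∀ p : ℤ × ℤ, |(π p).1 - p.1| ≤ 1 ∧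
    |(π p).2 - p.2| ≤ 1 ∧ ((1 : ℤ) < |p.1| → (π p).2 = p.2)) : Good 1 π := by
  intro p
  obtain ⟨a, b, d⟩ := h p
  exact ⟨by exact_mod_cast a, by exact_mod_cast b, fun h => d (by exact_mod_cast h)⟩

theorem aux_if (P : Prop) [Decidable P] : |(if P then (1 : ℤ) else 0)| ≤ 1 := by
  split_ifs <;> simp

theorem GG_Y : GG Yp := by
  constructor
  · refine good_of fun p => ?_
    rw [Yp_apply]
    refine ⟨by simp, ?_, ?_⟩
    · simp only [add_sub_cancel_left]; exact aux_if _
    · intro h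
      have : p.1 ≠ 0 := by rintro h'; rw [h'] at h; simp at h
      simp [this]
  · refine good_of fun p => ?_
    rw [Yp_inv_apply]
    refine ⟨by simp, ?_, ?_⟩
    · simp only [sub_sub_cancel_left, abs_neg]; exact aux_if _
    · intro h
      have : p.1 ≠ 0 := by rintro h'; rw [h'] at h; simp at h
      simp [this]

theorem GG_Q : GG Qp := by
  constructor
  · refine good_of fun p => ?_
    rw [Qp_apply]
    simp
  · refine good_of fun p => ?_
    rw [Qp_inv_apply]
    simp

theorem GG_YQ : GG (Yp⁻¹ * Qp) := by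
  constructor
  · refine good_of fun p => ?_
    rw [Equiv.Perm.mul_apply, Qp_apply, Yp_inv_apply]
    refine ⟨by simp, ?_, ?_⟩
    · simp only [sub_sub_cancel_left, abs_neg]; exact aux_if _
    · intro h
      have : p.1 - 1 ≠ 0 := by
        intro h'
        have : p.1 = 1 := by linarith
        rw [this] at h; simp at h
      simp [this]
  · refine good_of fun p => ?_
    rw [mul_inv_rev, inv_inv, Equiv.Perm.mul_apply, Yp_apply, Qp_inv_apply]
    refine ⟨by simp, ?_, ?_⟩
    · simp only [add_sub_cancel_left]; exact aux_if _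
    · intro h
      have : p.1 ≠ 0 := by rintro h'; rw [h'] at h; simp at h
      simp [this]

theorem GG_QY : GG (Qp * Yp⁻¹) := by
  constructor
  · refine good_of fun p => ?_
    rw [Equiv.Perm.mul_apply, Yp_inv_apply, Qp_apply]
    refine ⟨by simp, ?_, ?_⟩
    · simp only [sub_sub_cancel_left, abs_neg]; exact aux_if _
    · intro h
      have : p.1 ≠ 0 := by rintro h'; rw [h'] at h; simp at h
      simp [this]
  · refine good_of fun p => ?_
    rw [mul_inv_rev, inv_inv, Equiv.Perm.mul_apply, Qp_inv_apply, Yp_apply]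
    refine ⟨by simp, ?_, ?_⟩
    · simp only [add_sub_cancel_left]; exact aux_if _
    · intro h
      have : p.1 + 1 ≠ 0 := by
        intro h'
        have : p.1 = -1 := by linarith
        rw [this] at h; simp at h
      simp [this]

theorem tel {G : Type} [Group G] (g : ℕ → G) (k : ℕ) :
    (List.ofFn fun i : Fin k => (g i)⁻¹ * g (i + 1)).prod = (g 0)⁻¹ * g k := by
  induction k with
  | zero => simp
  | succ k ih =>
    rw [List.ofFn_succ', List.concat_eq_append, List.prod_append]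
    simp only [Fin.val_castSucc, Fin.val_last, List.prod_cons, List.prod_nil, mul_one]
    rw [ih]
    group

/-- partial products -/
def gg (k r i : ℕ) : Equiv.Perm (ℤ × ℤ) :=
  if i = 0 then 1
  else if k ≤ i then Qp
  else if r + 1 < k then (if i ≤ r then 1 else if i = r + 1 then Yp else Qp)
  else Qp * Yp⁻¹

def th (k r : ℕ) : FreeGroup (Fin k) →* Equiv.Perm (ℤ × ℤ) :=
  FreeGroup.lift fun i : Fin k => (gg k r i)⁻¹ * gg k r (i + 1)

theorem th_PP (k r : ℕ) (hk : 2 ≤ k) : th k r (PP k) = Qp := by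
  unfold PP
  rw [map_list_prod, List.map_ofFn]
  have : (fun i : Fin k => (th k r) (FreeGroup.of i)) =
      fun i : Fin k => (gg k r i)⁻¹ * gg k r (i + 1) := by
    funext i
    simp [th]
  show (List.ofFn (fun i : Fin k => (th k r) (FreeGroup.of i))).prod = Qp
  rw [this, tel]
  have h1 : gg k r 0 = 1 := by simp [gg]
  have h2 : gg k r k = Qp := by
    unfold gg
    rw [if_neg (by omega), if_pos le_rfl]
  rw [h1, h2]
  simp

theorem th_of_self (k r : ℕ) (hk : 2 ≤ k) (hr : r < k) : th k r (FreeGroup.of ⟨r, hr⟩) = Yp := by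
  simp only [th, FreeGroup.lift_apply_of]
  unfold gg
  by_cases h : r + 1 < k
  · rcases Nat.eq_zero_or_pos r with h0 | h0
    · subst h0
      have h1 : ¬ (k ≤ 0 + 1) := by omega
      simp [h, h1]
    · have h1 : ¬ (k ≤ r) := by omega
      have h2 : ¬ (k ≤ r + 1) := by omega
      have h3 : r ≠ 0 := by omega
      simp [h, h1, h2, h3]
  · have h1 : ¬ (k ≤ r) := by omega
    have h2 : k ≤ r + 1 := by omega
    have h3 : r ≠ 0 := by omega
    simp [h, h1, h2, h3]

theorem th_of_GG (k r : ℕ) (hk : 2 ≤ k) (hr : r < k) (i : Fin k) :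
    GG (th k r (FreeGroup.of i)) := by
  have key : th k r (FreeGroup.of i) = 1 ∨ th k r (FreeGroup.of i) = Yp ∨
      th k r (FreeGroup.of i) = Yp⁻¹ * Qp ∨ th k r (FreeGroup.of i) = Qp * Yp⁻¹ := by
    simp only [th, FreeGroup.lift_apply_of]
    have hi := i.2
    set m : ℕ := (i : ℕ) with hm
    unfold gg
    have e0 : m + 1 ≠ 0 := by omega
    have e1 : ¬ (k ≤ m) := by omega
    simp only [e0, e1, if_false]
    by_cases h : r + 1 < k
    · simp only [h, if_true]
      by_cases a1 : m = 0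
      · simp only [a1, if_true]
        have e2 : ¬ (k ≤ 0 + 1) := by omega
        simp only [e2, if_false]
        by_cases a2 : 0 + 1 ≤ r
        · left; simp [a2]
        · right; left
          have : r = 0 := by omega
          simp [this]
      · simp only [a1, if_false]
        by_cases a2 : m ≤ r
        · simp only [a2, if_true]
          have e2 : ¬ (k ≤ m + 1) := by omega
          simp only [e2, if_false]
          by_cases a3 : m + 1 ≤ r
          · left; simp [a3]
          · right; left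
            have : m = r := by omega
            simp [this]
        · simp only [a2, if_false]
          by_cases a3 : m = r + 1
          · right; right; left
            have e3 : ¬ (r + 1 + 1 ≤ r) := by omega
            have e4 : ¬ (r + 1 + 1 = r + 1) := by omega
            simp [a3]
          · left
            have e3 : ¬ (m + 1 ≤ r) := by omega
            have e4 : ¬ (m + 1 = r + 1) := by omega
            simp only [a3, e3, e4, if_false]
            split_ifs <;> simp
    · simp only [h, if_false]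
      by_cases a1 : m = 0
      · right; right; right
        have e2 : ¬ (k ≤ 0 + 1) := by omega
        simp [a1, e2]
      · by_cases a2 : k ≤ m + 1
        · right; left
          simp [a1, a2]
        · left
          simp [a1, a2]
  rcases key with h | h | h | h <;> rw [h]
  · exact GG_one
  · exact GG_Y
  · exact GG_YQ
  · exact GG_QY

theorem xx_eq (k : ℕ) (hk : 0 < k) (s : ℤ) : ∃ r : Fin k, ((r : ℕ) : ℤ) = s % k ∧
    xx k s = (PP k ^ (s / (k : ℤ)))⁻¹ * FreeGroup.of r * PP k ^ (s / (k : ℤ)) := by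
  unfold xx
  rw [dif_pos hk]
  refine ⟨_, ?_, by rw [zpow_neg]⟩
  have h1 := Int.emod_nonneg s (b := (k : ℤ)) (by omega)
  simp only []
  omega

theorem xx_zpow (k : ℕ) (hk : 0 < k) (s : ℤ) : ∃ r : Fin k, ((r : ℕ) : ℤ) = s % k ∧
    ∀ a : ℤ, xx k s ^ a =
      (PP k ^ (s / (k : ℤ)))⁻¹ * FreeGroup.of r ^ a * PP k ^ (s / (k : ℤ)) := by
  obtain ⟨r, h1, h2⟩ := xx_eq k hk s
  refine ⟨r, h1, fun a => ?_⟩
  have h3 := conj_zpow (i := a) (a := (PP k ^ (s / (k : ℤ)))⁻¹) (b := FreeGroup.of r)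
  rw [inv_inv] at h3
  rw [h2, h3]

/-- action of `xx s ^ a` -/
theorem th_xx (k : ℕ) (hk : 2 ≤ k) (r : ℕ) (s : ℤ) (hs : s % k = r) (a : ℤ) (p : ℤ × ℤ) :
    th k r (xx k s ^ a) p = (p.1, p.2 + if p.1 = s / k then a else 0) := by
  obtain ⟨r', h1, h2⟩ := xx_zpow k (by omega) s
  have h3 : (r' : ℕ) = r := by
    rw [hs] at h1
    exact_mod_cast h1
  have hr : r < k := h3 ▸ r'.2
  have h4 : r' = ⟨r, hr⟩ := Fin.ext h3
  rw [h2 a, map_mul, map_mul, map_inv, map_zpow, map_zpow, th_PP k r hk, h4,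
    th_of_self k r hk hr, ← zpow_neg, Equiv.Perm.mul_apply, Equiv.Perm.mul_apply, Qp_zpow, Yp_zpow,
    Qp_zpow]
  have h5 : (p.1 - s / (k : ℤ) = 0) ↔ p.1 = s / k := sub_eq_zero
  simp only [h5]
  ext <;> simp

/-- `xx s ^ a` is good for every `th` -/
theorem th_xx_good (k : ℕ) (hk : 2 ≤ k) (r : ℕ) (hr : r < k) (s a : ℤ) :
    Good ((s / (k : ℤ)).natAbs + a.natAbs + (s / (k : ℤ)).natAbs) (th k r (xx k s ^ a)) := by
  obtain ⟨r', h1, h2⟩ := xx_zpow k (by omega) s
  rw [h2 a, map_mul, map_mul, map_inv, map_zpow, map_zpow, th_PP k r hk]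
  have g1 := th_of_GG k r hk hr r'
  have g2 := (GG_Q.1.zpow GG_Q.2 (-(s / (k : ℤ))))
  rw [Int.natAbs_neg, zpow_neg] at g2
  exact (g2.mul (g1.1.zpow g1.2 a)).mul (GG_Q.1.zpow GG_Q.2 _)

theorem th_ev_good (hX : S_XX) (k : ℕ) (hk : 2 ≤ k) (r : ℕ) (hr : r < k) (y : W ℕ) :
    Good y.length (th k r (evF k y)) := by
  induction y with
  | nil =>
    simp only [evF, ev, List.map_nil, List.prod_nil, map_one, List.length_nil]
    exact Good.one
  | cons b y ih =>
    have e : evF k (b :: y) =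
      (if b.2 then xx k ((b.1 % k : ℕ) : ℤ) else (xx k ((b.1 % k : ℕ) : ℤ))⁻¹) * evF k y := by
      simp only [evF, ev, List.map_cons, List.prod_cons]
    have hlt : b.1 % k < k := Nat.mod_lt _ (by omega)
    have h1 : xx k ((b.1 % k : ℕ) : ℤ) = FreeGroup.of ⟨b.1 % k, hlt⟩ :=
      (hX k (by omega)).2.2 ⟨b.1 % k, hlt⟩
    have g1 := th_of_GG k r hk hr ⟨b.1 % k, hlt⟩
    rw [e, map_mul, List.length_cons, h1, Nat.add_comm]
    refine Good.mul ?_ ih
    split_ifs
    · exact g1.1
    · rw [map_inv]; exact g1.2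

/-- exponent sums -/
def es (k r : ℕ) : FreeGroup (Fin k) →* Multiplicative ℤ :=
  FreeGroup.lift fun i : Fin k => if (i : ℕ) = r then Multiplicative.ofAdd 1 else 1

theorem es_xx (k : ℕ) (hk : 0 < k) (r : ℕ) (s a : ℤ) :
    (es k r (xx k s ^ a)).toAdd = if s % k = r then a else 0 := by
  obtain ⟨r', h1, h2⟩ := xx_zpow k hk s
  have e : es k r ((PP k ^ (s / (k : ℤ)))⁻¹ * FreeGroup.of r' ^ a * PP k ^ (s / (k : ℤ))) =
      es k r (FreeGroup.of r') ^ a := by
    rw [map_mul (es k r), map_mul (es k r), map_inv (es k r), map_zpow (es k r) (FreeGroup.of r') a]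
    rw [mul_comm, ← mul_assoc, mul_inv_cancel, one_mul]
  rw [h2 a, e]
  simp only [es, FreeGroup.lift_apply_of]
  rw [← h1]
  by_cases h : (r' : ℕ) = r
  · simp [h]
  · have h' : ¬ ((r' : ℕ) : ℤ) = r := by exact_mod_cast h
    rw [if_neg h, if_neg h', one_zpow, toAdd_one]

theorem es_ev (hX : S_XX) (k : ℕ) (hk : 0 < k) (r : ℕ) (y : W ℕ) :
    |(es k r (evF k y)).toAdd| ≤ y.length := by
  induction y with
  | nil =>
    simp only [evF, ev, List.map_nil, List.prod_nil, map_one, List.length_nil]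
    simp
  | cons b y ih =>
    have e : evF k (b :: y) =
      (if b.2 then xx k ((b.1 % k : ℕ) : ℤ) else (xx k ((b.1 % k : ℕ) : ℤ))⁻¹) * evF k y := by
      simp only [evF, ev, List.map_cons, List.prod_cons]
    have hlt : b.1 % k < k := Nat.mod_lt _ (by omega)
    have h1 : xx k ((b.1 % k : ℕ) : ℤ) = FreeGroup.of ⟨b.1 % k, hlt⟩ :=
      (hX k hk).2.2 ⟨b.1 % k, hlt⟩
    rw [e, map_mul, h1, toAdd_mul, List.length_cons]
    have h2 : |(es k r (if b.2 then FreeGroup.of ⟨b.1 % k, hlt⟩
        else (FreeGroup.of ⟨b.1 % k, hlt⟩)⁻¹)).toAdd| ≤ 1 := by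
      split_ifs
      · simp only [es, FreeGroup.lift_apply_of]
        split_ifs <;> simp
      · rw [map_inv, toAdd_inv, abs_neg]
        simp only [es, FreeGroup.lift_apply_of]
        split_ifs <;> simp
    refine (abs_add_le _ _).trans ?_
    push_cast
    linarith

/-- one power -/
theorem one_pow (hX : S_XX) (k : ℕ) (hk : 2 ≤ k) (y : W ℕ) (s a : ℤ)
    (h : evF k y = xx k s ^ a) : |a| ≤ y.length ∧ (a ≠ 0 → |s / (k : ℤ)| ≤ y.length) := by
  have h0 := Int.emod_nonneg s (b := (k : ℤ)) (by omega)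
  have h1 := Int.emod_lt_of_pos s (b := (k : ℤ)) (by omega)
  obtain ⟨r, hr⟩ := Int.eq_ofNat_of_zero_le h0
  have hrk : r < k := by
    rw [hr] at h1
    exact_mod_cast h1
  have hg := th_ev_good hX k hk r hrk y
  rw [h] at hg
  obtain ⟨a1, a2, a3⟩ := hg (s / (k : ℤ), 0)
  rw [th_xx k hk r s hr a] at a2 a3
  simp only [if_true, zero_add, sub_zero] at a2 a3
  refine ⟨a2, fun ha => ?_⟩
  by_contra hc
  exact ha (a3 (not_le.1 hc))

theorem t_BD (hX : S_XX) : S_BD := by
  intro k hk
  refine ⟨fun n => (k + 1) * (2 * n + 3), ?_, ?_, ?_⟩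
  · exact (Primrec.nat_mul.comp (Primrec.const (k + 1)) (Primrec.nat_add.comp
      (Primrec.nat_mul.comp (Primrec.const 2) Primrec.id) (Primrec.const 3))).to_comp
  · intro y s a h
    obtain ⟨h1, h2⟩ := one_pow hX k hk y s a h
    by_cases ha : a = 0
    · refine ⟨0, 0, by rw [abs_zero]; positivity, by rw [abs_zero]; positivity, ?_⟩
      rw [h, ha, zpow_zero, zpow_zero]
    · have h3 := h2 ha
      refine ⟨s, a, ?_, ?_, h⟩
      · have e1 := Int.mul_ediv_add_emod s k
        have e2 := Int.emod_nonneg s (b := (k : ℤ)) (by omega)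
        have e3 := Int.emod_lt_of_pos s (b := (k : ℤ)) (by omega)
        have hk' : (2 : ℤ) ≤ k := by exact_mod_cast hk
        push_cast
        rw [abs_le] at h3 ⊢
        constructor <;> nlinarith
      · have hk' : (2 : ℤ) ≤ k := by exact_mod_cast hk
        push_cast
        refine h1.trans ?_
        nlinarith
  · intro y j s a b h
    have hk' : (2 : ℤ) ≤ k := by exact_mod_cast hk
    set N : ℕ := y.length + j.natAbs with hN
    have hNn : (y.length : ℤ) ≤ N := by rw [hN]; push_cast; have := abs_nonneg j; linarith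
    have hN0 : (0 : ℤ) ≤ N := Int.natCast_nonneg N
    have hBN : ∀ z : ℤ, |z| ≤ 2 * N → |z| ≤ (((k + 1) * (2 * N + 3) : ℕ) : ℤ) := by
      intro z hz
      push_cast
      nlinarith
    by_cases hb : b = 0
    · subst hb
      rw [zpow_zero, mul_one] at h
      obtain ⟨h1, _⟩ := one_pow hX k hk y j a h
      refine ⟨0, a, 0, hBN _ (by simp), hBN _ (by linarith), hBN _ (by simp), ?_⟩
      rw [h, zpow_zero, mul_one]
    by_cases hsj : s = j
    · subst hsj
      rw [← zpow_add] at h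
      obtain ⟨h1, _⟩ := one_pow hX k hk y s (a + b) h
      refine ⟨0, a + b, 0, hBN _ (by simp), hBN _ (by linarith), hBN _ (by simp), ?_⟩
      rw [h, zpow_zero, mul_one]
    have s0 := Int.emod_nonneg s (b := (k : ℤ)) (by omega)
    have s1 := Int.emod_lt_of_pos s (b := (k : ℤ)) (by omega)
    have j0 := Int.emod_nonneg j (b := (k : ℤ)) (by omega)
    have j1 := Int.emod_lt_of_pos j (b := (k : ℤ)) (by omega)
    obtain ⟨r, hr⟩ := Int.eq_ofNat_of_zero_le s0
    obtain ⟨t, ht⟩ := Int.eq_ofNat_of_zero_le j0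
    have hrk : r < k := by
      rw [hr] at s1
      exact_mod_cast s1
    have ha : |a| ≤ y.length := by
      by_cases hrt : r = t
      · subst hrt
        have hSJ : j / (k : ℤ) ≠ s / (k : ℤ) := by
          intro hh
          apply hsj
          rw [← Int.mul_ediv_add_emod s k, ← Int.mul_ediv_add_emod j k, hr, ht, hh]
        have hg := th_ev_good hX k hk r hrk y
        rw [h] at hg
        obtain ⟨a1, a2, a3⟩ := hg (j / (k : ℤ), 0)
        rw [map_mul, Equiv.Perm.mul_apply, th_xx k hk r s hr b, th_xx k hk r j ht a] at a2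
        simpa [hSJ] using a2
      · have he := es_ev hX k (by omega) t y
        have hst : ¬ (s % (k : ℤ) = t) := by
          rw [hr]; exact_mod_cast hrt
        rw [h, map_mul, toAdd_mul, es_xx k (by omega) t j a, es_xx k (by omega) t s b,
          if_pos ht, if_neg hst, add_zero] at he
        exact he
    have hx : xx k s ^ b = xx k j ^ (-a) * evF k y := by
      rw [h, ← mul_assoc, ← zpow_add]
      simp
    have hg := (th_xx_good k hk r hrk j (-a)).mul (th_ev_good hX k hk r hrk y)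
    rw [← map_mul, ← hx] at hg
    obtain ⟨c1, c2, c3⟩ := hg (s / (k : ℤ), 0)
    rw [th_xx k hk r s hr b] at c2 c3
    simp only [if_true, zero_add, sub_zero] at c2 c3
    have hJ : (((j / (k : ℤ)).natAbs : ℕ) : ℤ) ≤ j.natAbs := by
      rw [Int.natCast_natAbs, Int.natCast_natAbs]
      exact Int.abs_ediv_le_abs j k
    have hM : (((j / (k : ℤ)).natAbs + (-a).natAbs + (j / (k : ℤ)).natAbs + y.length : ℕ) : ℤ) ≤
        2 * N := by
      rw [Int.natAbs_neg]
      have e : ((a.natAbs : ℕ) : ℤ) = |a| := Int.natCast_natAbs a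
      have e2 : (N : ℤ) = y.length + j.natAbs := by rw [hN]; push_cast; rfl
      rw [e2]
      rw [Nat.cast_add, Nat.cast_add, Nat.cast_add, e]
      linarith
    have hS : |s / (k : ℤ)| ≤ 2 * N := by
      by_contra hc
      exact hb (c3 (hM.trans_lt (not_le.1 hc)))
    refine ⟨s, a, b, ?_, hBN _ (by linarith), hBN _ (c2.trans hM), h⟩
    have e1 := Int.mul_ediv_add_emod s k
    push_cast
    rw [abs_le] at hS ⊢
    constructor <;> nlinarith

end Pool.Agent.H514R.EA
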